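import Mathlib

/-!
# The semirings `S₇`, `S₇⁰`, varieties, and syntactic quotients of algebras of sets of monomials
-/

set_option autoImplicit false

namespace Pool.Agent.R639.S7

/-! ### Universal algebra -/

/-- Terms in the signature `{+, ·}` over the variables `x 0, x 1, …`. -/
inductive Tm : Type
  | x : ℕ → Tm
  | add : Tm → Tm → Tm
  | mul : Tm → Tm → Tm

/-- Algebras of the signature `{+, ·}` on the set `A`. -/
structure Alg (A : Type) : Type where
  /-- addition -/
  add : A → A → A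
  /-- multiplication -/
  mul : A → A → A

/-- Value of a term under an assignment of the variables. -/
def Tm.eval {A : Type} (S : Alg A) (v : ℕ → A) : Tm → A
  | .x i => v i
  | .add s t => S.add (Tm.eval S v s) (Tm.eval S v t)
  | .mul s t => S.mul (Tm.eval S v s) (Tm.eval S v t)

/-- The identity `e.1 ≈ e.2` holds in the algebra `S`. -/
def Holds {A : Type} (S : Alg A) (e : Tm × Tm) : Prop :=
  ∀ v : ℕ → A, e.1.eval S v = e.2.eval S v

/-- all algebras of the signature -/
abbrev AnyAlg : Type 1 := Σ A : Type, Alg A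

/-- the class of all models of a set of identities -/
def Mod (D : Set (Tm × Tm)) : Set AnyAlg := {T | ∀ e ∈ D, Holds T.2 e}

/-- A variety: a class of algebras defined by identities. -/
def IsVariety (P : Set AnyAlg) : Prop := ∃ D : Set (Tm × Tm), P = Mod D

/-- The variety generated by `S`: the least variety which contains `S`. -/
def V {A : Type} (S : Alg A) : Set AnyAlg :=
  {T | ∀ P : Set AnyAlg, IsVariety P → (⟨A, S⟩ : AnyAlg) ∈ P → T ∈ P}

theorem mem_V {A : Type} (S : Alg A) (T : AnyAlg) :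
    T ∈ V S ↔ ∀ e, Holds S e → Holds T.2 e := by
  constructor
  · intro h e he
    exact h (Mod {e}) ⟨_, rfl⟩ (by rintro _ rfl; exact he) e rfl
  · rintro h P ⟨D, rfl⟩ hS e he
    exact h e (hS e he)

/-! ### The semirings -/

/-- The elements of `S₇`; `t` is the absorbing element. -/
inductive S7 : Type
  | one | a | t
  deriving DecidableEq, Fintype

namespace S7

/-- Addition of `S₇`: idempotent, and `x + y = t` for `x ≠ y`. -/
def add (u v : S7) : S7 := if u = v then u else t

/-- Multiplication of `S₇`: `1` is neutral, all other products are `t`. -/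
def mul (u v : S7) : S7 := if u = one then v else if v = one then u else t

/-- The semiring `S₇`. -/
def alg : Alg S7 where
  add := add
  mul := mul

end S7

/-- The elements of `S₇⁰`. -/
inductive S70 : Type
  | zero | one | a | t
  deriving DecidableEq, Fintype

namespace S70

/-- Addition of `S₇⁰`: `0` is neutral, otherwise as in `S₇`. -/
def add (u v : S70) : S70 :=
  if u = zero then v else if v = zero then u else if u = v then u else t

/-- Multiplication of `S₇⁰`: `0` is absorbing, otherwise as in `S₇`. -/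
def mul (u v : S70) : S70 :=
  if u = zero then zero else if v = zero then zero else
  if u = one then v else if v = one then u else t

/-- The semiring `S₇⁰` in the signature `{+, ·}`. -/
def alg : Alg S70 where
  add := add
  mul := mul

/-- auxiliary: `1 ≤ u` -/
def P1 (u : S70) : Prop := u = one ∨ u = t
/-- auxiliary: `a ≤ u` -/
def PA (u : S70) : Prop := u = a ∨ u = t

instance (u : S70) : Decidable (P1 u) := by unfold P1; infer_instance
instance (u : S70) : Decidable (PA u) := by unfold PA; infer_instance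

theorem P1_add : ∀ u v : S70, P1 (add u v) ↔ P1 u ∨ P1 v := by decide
theorem PA_add : ∀ u v : S70, PA (add u v) ↔ PA u ∨ PA v := by decide
theorem P1_mul : ∀ u v : S70, P1 (mul u v) ↔ (P1 u ∧ P1 v) ∨ (PA u ∧ PA v) := by decide
theorem PA_mul : ∀ u v : S70, PA (mul u v) ↔ (PA u ∧ (P1 v ∨ PA v)) ∨ ((P1 u ∨ PA u) ∧ PA v) := by
  decide
theorem ext' : ∀ u v : S70, (P1 u ↔ P1 v) → (PA u ↔ PA v) → u = v := by decide

end S70

/-- the inclusion of `S₇` in `S₇⁰` -/
def incl : S7 → S70
  | .one => .one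
  | .a => .a
  | .t => .t

theorem incl_add : ∀ u v : S7, incl (S7.add u v) = S70.add (incl u) (incl v) := by decide
theorem incl_mul : ∀ u v : S7, incl (S7.mul u v) = S70.mul (incl u) (incl v) := by decide
theorem incl_inj : ∀ u v : S7, incl u = incl v → u = v := by decide

theorem eval_incl (v : ℕ → S7) (s : Tm) :
    incl (s.eval S7.alg v) = s.eval S70.alg (fun i => incl (v i)) := by
  induction s with
  | x i => rfl
  | add s t hs ht =>
    show incl (S7.add _ _) = S70.add _ _
    rw [incl_add, hs, ht]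
  | mul s t hs ht =>
    show incl (S7.mul _ _) = S70.mul _ _
    rw [incl_mul, hs, ht]

theorem holds_S7_of_S70 (e : Tm × Tm) (h : Holds S70.alg e) : Holds S7.alg e := by
  intro v
  apply incl_inj
  rw [eval_incl, eval_incl]
  exact h _

/-! ### Sets of multisets -/

section Sets

variable {P : Type} [DecidableEq P]

/-- elementwise sums -/
def im (S q : Set (Multiset P)) : Set (Multiset P) := Set.image2 (· + ·) S q

/-- sets of multisets with union and elementwise sum -/
def Raw (P : Type) : Alg (Set (Multiset P)) where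
  add := fun S T => S ∪ T
  mul := fun S T => Set.image2 (· + ·) S T

/-- number of elements of `m` which lie in `B` -/
def cnt (B : Finset P) (m : Multiset P) : ℕ := ∑ p ∈ B, m.count p

theorem cnt_add (B : Finset P) (m m' : Multiset P) : cnt B (m + m') = cnt B m + cnt B m' := by
  unfold cnt
  rw [← Finset.sum_add_distrib]
  exact Finset.sum_congr rfl (fun p _ => Multiset.count_add _ _ _)

/-- `m` avoids `Z` -/
def Av (Z : Set P) (m : Multiset P) : Prop := ∀ y ∈ m, y ∉ Z

omit [DecidableEq P] in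
theorem Av_add (Z : Set P) (m m' : Multiset P) : Av Z (m + m') ↔ Av Z m ∧ Av Z m' := by
  unfold Av
  constructor
  · intro h
    exact ⟨fun y hy => h y (Multiset.mem_add.2 (Or.inl hy)),
      fun y hy => h y (Multiset.mem_add.2 (Or.inr hy))⟩
  · rintro ⟨h, h'⟩ y hy
    rcases Multiset.mem_add.1 hy with hy | hy
    · exact h y hy
    · exact h' y hy

/-- some member avoiding `Z` does not meet `B` exactly once -/
def H1 (B : Finset P) (Z : Set P) (S : Set (Multiset P)) : Prop := ∃ m ∈ S, Av Z m ∧ cnt B m ≠ 1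
/-- some member avoiding `Z` meets `B` -/
def HA (B : Finset P) (Z : Set P) (S : Set (Multiset P)) : Prop := ∃ m ∈ S, Av Z m ∧ 1 ≤ cnt B m

open Classical in
/-- the value in `S₇⁰` of a set of monomials: variables in `Z` are `0`, in `B` are `a`, all other
ones are `1` -/
noncomputable def Val (B : Finset P) (Z : Set P) (S : Set (Multiset P)) : S70 :=
  if H1 B Z S then (if HA B Z S then .t else .one) else (if HA B Z S then .a else .zero)

theorem P1_Val (B : Finset P) (Z : Set P) (S : Set (Multiset P)) :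
    (Val B Z S).P1 ↔ H1 B Z S := by
  unfold Val S70.P1
  by_cases h1 : H1 B Z S <;> by_cases h2 : HA B Z S <;> simp [h1, h2]

theorem PA_Val (B : Finset P) (Z : Set P) (S : Set (Multiset P)) :
    (Val B Z S).PA ↔ HA B Z S := by
  unfold Val S70.PA
  by_cases h1 : H1 B Z S <;> by_cases h2 : HA B Z S <;> simp [h1, h2]

theorem Val_union (B : Finset P) (Z : Set P) (S T : Set (Multiset P)) :
    Val B Z (S ∪ T) = S70.add (Val B Z S) (Val B Z T) := by
  apply S70.ext'
  · rw [S70.P1_add, P1_Val, P1_Val, P1_Val]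
    unfold H1
    constructor
    · rintro ⟨m, hm | hm, h⟩
      · exact Or.inl ⟨m, hm, h⟩
      · exact Or.inr ⟨m, hm, h⟩
    · rintro (⟨m, hm, h⟩ | ⟨m, hm, h⟩)
      · exact ⟨m, Or.inl hm, h⟩
      · exact ⟨m, Or.inr hm, h⟩
  · rw [S70.PA_add, PA_Val, PA_Val, PA_Val]
    unfold HA
    constructor
    · rintro ⟨m, hm | hm, h⟩
      · exact Or.inl ⟨m, hm, h⟩
      · exact Or.inr ⟨m, hm, h⟩
    · rintro (⟨m, hm, h⟩ | ⟨m, hm, h⟩)
      · exact ⟨m, Or.inl hm, h⟩
      · exact ⟨m, Or.inr hm, h⟩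

theorem H1_or_HA (B : Finset P) (Z : Set P) (S : Set (Multiset P)) :
    (H1 B Z S ∨ HA B Z S) ↔ ∃ m ∈ S, Av Z m := by
  unfold H1 HA
  constructor
  · rintro (⟨m, hm, h, _⟩ | ⟨m, hm, h, _⟩) <;> exact ⟨m, hm, h⟩
  · rintro ⟨m, hm, h⟩
    by_cases hc : cnt B m = 1
    · exact Or.inr ⟨m, hm, h, hc.ge⟩
    · exact Or.inl ⟨m, hm, h, hc⟩

theorem Val_mul (B : Finset P) (Z : Set P) (S T : Set (Multiset P)) :
    Val B Z (Set.image2 (· + ·) S T) = S70.mul (Val B Z S) (Val B Z T) := by
  apply S70.ext'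
  · rw [S70.P1_mul, P1_Val, P1_Val, P1_Val, PA_Val, PA_Val]
    constructor
    · rintro ⟨_, ⟨m, hm, m', hm', rfl⟩, h, hc⟩
      have h' := (Av_add Z m m').1 h
      have hc' : cnt B m + cnt B m' ≠ 1 := by rw [← cnt_add]; exact hc
      by_cases h1 : 1 ≤ cnt B m ∧ 1 ≤ cnt B m'
      · exact Or.inr ⟨⟨m, hm, h'.1, h1.1⟩, ⟨m', hm', h'.2, h1.2⟩⟩
      · exact Or.inl ⟨⟨m, hm, h'.1, by omega⟩, ⟨m', hm', h'.2, by omega⟩⟩
    · rintro (⟨⟨m, hm, h, hc⟩, ⟨m', hm', h', hc'⟩⟩ | ⟨⟨m, hm, h, hc⟩, ⟨m', hm', h', hc'⟩⟩)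
      · refine ⟨m + m', ⟨m, hm, m', hm', rfl⟩, (Av_add Z m m').2 ⟨h, h'⟩, ?_⟩
        rw [cnt_add]; omega
      · refine ⟨m + m', ⟨m, hm, m', hm', rfl⟩, (Av_add Z m m').2 ⟨h, h'⟩, ?_⟩
        rw [cnt_add]; omega
  · rw [S70.PA_mul, P1_Val, P1_Val, PA_Val, PA_Val, PA_Val, H1_or_HA, H1_or_HA]
    constructor
    · rintro ⟨_, ⟨m, hm, m', hm', rfl⟩, h, hc⟩
      have h' := (Av_add Z m m').1 h
      have hc' : 1 ≤ cnt B m + cnt B m' := by rw [← cnt_add]; exact hc
      by_cases h1 : 1 ≤ cnt B m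
      · exact Or.inl ⟨⟨m, hm, h'.1, h1⟩, ⟨m', hm', h'.2⟩⟩
      · exact Or.inr ⟨⟨m, hm, h'.1⟩, ⟨m', hm', h'.2, by omega⟩⟩
    · rintro (⟨⟨m, hm, h, hc⟩, ⟨m', hm', h'⟩⟩ | ⟨⟨m, hm, h⟩, ⟨m', hm', h', hc'⟩⟩)
      · refine ⟨m + m', ⟨m, hm, m', hm', rfl⟩, (Av_add Z m m').2 ⟨h, h'⟩, ?_⟩
        rw [cnt_add]; omega
      · refine ⟨m + m', ⟨m, hm, m', hm', rfl⟩, (Av_add Z m m').2 ⟨h, h'⟩, ?_⟩
        rw [cnt_add]; omega

theorem Val_eval (B : Finset P) (Z : Set P) (φ : ℕ → Set (Multiset P)) (t : Tm) :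
    Val B Z (t.eval (Raw P) φ) = t.eval S70.alg (fun i => Val B Z (φ i)) := by
  induction t with
  | x i => rfl
  | add s t hs ht =>
    show Val B Z (s.eval (Raw P) φ ∪ t.eval (Raw P) φ) = _
    rw [Val_union, hs, ht]; rfl
  | mul s t hs ht =>
    show Val B Z (Set.image2 (· + ·) (s.eval (Raw P) φ) (t.eval (Raw P) φ)) = _
    rw [Val_mul, hs, ht]; rfl

/-! ### The syntactic quotient -/

/-- nonempty sets of nonempty multisets -/
def Fp (P : Type) : Type := {S : Set (Multiset P) // S.Nonempty ∧ (0 : Multiset P) ∉ S}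

/-- union -/
def Fp.add (S T : Fp P) : Fp P :=
  ⟨S.1 ∪ T.1, S.2.1.mono Set.subset_union_left, fun h => h.elim S.2.2 T.2.2⟩

/-- elementwise sum -/
def Fp.mul (S T : Fp P) : Fp P :=
  ⟨Set.image2 (· + ·) S.1 T.1, S.2.1.image2 T.2.1, by
    rintro ⟨m, hm, m', _, h⟩
    have h' : m + m' = 0 := h
    rw [add_eq_zero] at h'
    exact S.2.2 (h'.1 ▸ hm)⟩

/-- The syntactic congruence of the set `W`. -/
def st (W : Set (Multiset P)) : Setoid (Fp P) where
  r := fun S T => ∀ q r : Set (Multiset P), im S.1 q ∪ r = W ↔ im T.1 q ∪ r = W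
  iseqv := ⟨fun _ _ _ => Iff.rfl, fun h q r => (h q r).symm, fun h h' q r => (h q r).trans (h' q r)⟩

omit [DecidableEq P] in
theorem st_add (W : Set (Multiset P)) (S S' : Fp P) (h : (st W).r S S') (T T' : Fp P)
    (h' : (st W).r T T') : (st W).r (Fp.add S T) (Fp.add S' T') := by
  intro q r
  have e : ∀ S T : Set (Multiset P), im (S ∪ T) q ∪ r = im S q ∪ (im T q ∪ r) := by
    intro S T; unfold im; rw [Set.image2_union_left, Set.union_assoc]
  have e' : ∀ S T : Set (Multiset P), im S q ∪ (im T q ∪ r) = im T q ∪ (im S q ∪ r) := by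
    intro S T; rw [← Set.union_assoc, ← Set.union_assoc, Set.union_comm (im S q)]
  show im (S.1 ∪ T.1) q ∪ r = W ↔ im (S'.1 ∪ T'.1) q ∪ r = W
  rw [e, e, h q _, e', h' q _, e']

omit [DecidableEq P] in
theorem st_mul (W : Set (Multiset P)) (S S' : Fp P) (h : (st W).r S S') (T T' : Fp P)
    (h' : (st W).r T T') : (st W).r (Fp.mul S T) (Fp.mul S' T') := by
  intro q r
  have e : ∀ S T : Set (Multiset P), im (Set.image2 (· + ·) S T) q = im S (im T q) := by
    intro S T
    exact Set.image2_assoc (fun a b c => add_assoc a b c)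
  have e' : ∀ S T : Set (Multiset P), im (Set.image2 (· + ·) S T) q = im T (im S q) := by
    intro S T
    rw [Set.image2_comm (s := S) (t := T) (fun a b => add_comm a b)]
    exact Set.image2_assoc (fun a b c => add_assoc a b c)
  show im (Set.image2 (· + ·) S.1 T.1) q ∪ r = W ↔ im (Set.image2 (· + ·) S'.1 T'.1) q ∪ r = W
  rw [e, h _ r, ← e, e', h' _ r, ← e']

/-- the quotient algebra -/
def QA (W : Set (Multiset P)) : Alg (Quotient (st W)) where
  add := Quotient.map₂ Fp.add (fun _ _ h _ _ h' => st_add W _ _ h _ _ h')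
  mul := Quotient.map₂ Fp.mul (fun _ _ h _ _ h' => st_mul W _ _ h _ _ h')

/-- the algebra of nonempty sets of nonempty multisets -/
def FpAlg (P : Type) : Alg (Fp P) where
  add := Fp.add
  mul := Fp.mul

omit [DecidableEq P] in
theorem coe_eval (φ : ℕ → Fp P) (t : Tm) :
    (t.eval (FpAlg P) φ).1 = t.eval (Raw P) (fun i => (φ i).1) := by
  induction t with
  | x i => rfl
  | add s t hs ht =>
    show (s.eval (FpAlg P) φ).1 ∪ (t.eval (FpAlg P) φ).1 = _
    rw [hs, ht]; rfl
  | mul s t hs ht =>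
    show Set.image2 (· + ·) (s.eval (FpAlg P) φ).1 (t.eval (FpAlg P) φ).1 = _
    rw [hs, ht]; rfl

omit [DecidableEq P] in
theorem QA_eval (W : Set (Multiset P)) (φ : ℕ → Fp P) (t : Tm) :
    t.eval (QA W) (fun i => Quotient.mk (st W) (φ i)) = Quotient.mk (st W) (t.eval (FpAlg P) φ) := by
  induction t with
  | x i => rfl
  | add s t hs ht =>
    show (QA W).add (s.eval (QA W) _) (t.eval (QA W) _) = _
    rw [hs, ht]; rfl
  | mul s t hs ht =>
    show (QA W).mul (s.eval (QA W) _) (t.eval (QA W) _) = _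
    rw [hs, ht]; rfl

omit [DecidableEq P] in
theorem QA_holds (W : Set (Multiset P)) (e : Tm × Tm) :
    Holds (QA W) e ↔ ∀ (φ : ℕ → Fp P) (q r : Set (Multiset P)),
      im (e.1.eval (Raw P) (fun i => (φ i).1)) q ∪ r = W ↔
      im (e.2.eval (Raw P) (fun i => (φ i).1)) q ∪ r = W := by
  constructor
  · intro h φ q r
    have h1 := h (fun i => Quotient.mk (st W) (φ i))
    rw [QA_eval, QA_eval] at h1
    have h2 := Quotient.exact h1 q r
    rw [coe_eval, coe_eval] at h2
    exact h2
  · intro h v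
    obtain ⟨φ, rfl⟩ : ∃ φ : ℕ → Fp P, v = fun i => Quotient.mk (st W) (φ i) :=
      ⟨fun i => (v i).out, by funext i; exact (Quotient.out_eq _).symm⟩
    rw [QA_eval, QA_eval]
    apply Quotient.sound
    intro q r
    rw [coe_eval, coe_eval]
    exact h φ q r

end Sets

end Pool.Agent.R639.S7
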