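import Pool.Agent.R639.S7.Base

/-!
# The grid
-/

set_option autoImplicit false

namespace Pool.Agent.R639.S7

open Finset

section Grid

variable {ι : Type} [Fintype ι] [DecidableEq ι]

/-- column `j` of the grid -/
def colF (j : ι) : Finset (ι × ι) := univ.filter (fun p => p.2 = j)
/-- row `i` of the grid -/
def rowF (i : ι) : Finset (ι × ι) := univ.filter (fun p => p.1 = i)
/-- product over column `j` -/
def col (j : ι) : Multiset (ι × ι) := (colF j).val
/-- product over row `i` -/
def row (i : ι) : Multiset (ι × ι) := (rowF i).val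

theorem count_col (j : ι) (p : ι × ι) : (col j).count p = if p.2 = j then 1 else 0 := by
  unfold col
  rw [Multiset.count_eq_of_nodup (colF j).nodup]
  by_cases h : p.2 = j <;> simp [colF, h]

theorem count_row (i : ι) (p : ι × ι) : (row i).count p = if p.1 = i then 1 else 0 := by
  unfold row
  rw [Multiset.count_eq_of_nodup (rowF i).nodup]
  by_cases h : p.1 = i <;> simp [rowF, h]

theorem mem_col (j : ι) (p : ι × ι) : p ∈ col j ↔ p.2 = j := by
  unfold col; simp [colF]

theorem mem_row (i : ι) (p : ι × ι) : p ∈ row i ↔ p.1 = i := by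
  unfold row; simp [rowF]

theorem cnt_col (B : Finset (ι × ι)) (j : ι) (h : ∃! i, (i, j) ∈ B) : cnt B (col j) = 1 := by
  obtain ⟨i, hi, hu⟩ := h
  unfold cnt
  rw [Finset.sum_eq_single (i, j)]
  · rw [count_col]; simp
  · rintro ⟨i', j'⟩ hp hne
    rw [count_col]
    by_cases hj : j' = j
    · subst hj
      exact absurd (by rw [hu i' hp]) hne
    · simp [hj]
  · intro h'; exact absurd hi h'

theorem cnt_row (B : Finset (ι × ι)) (i : ι) (h : ∃! j, (i, j) ∈ B) : cnt B (row i) = 1 := by
  obtain ⟨j, hj, hu⟩ := h
  unfold cnt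
  rw [Finset.sum_eq_single (i, j)]
  · rw [count_row]; simp
  · rintro ⟨i', j'⟩ hp hne
    rw [count_row]
    by_cases hi : i' = i
    · subst hi
      exact absurd (by rw [hu j' hp]) hne
    · simp [hi]
  · intro h'; exact absurd hj h'

/-- The columns and all rows but row `l`. -/
def lines (l : ι) : Set (Multiset (ι × ι)) := {m | (∃ j, m = col j) ∨ ∃ i, i ≠ l ∧ m = row i}

omit [Fintype ι] in
theorem nat_sum_one (s : Finset ι) (f : ι → ℕ) (h : ∑ i ∈ s, f i = 1) :
    ∃ a ∈ s, f a = 1 ∧ ∀ b ∈ s, b ≠ a → f b = 0 := by
  obtain ⟨a, ha, hne⟩ := Finset.exists_ne_zero_of_sum_ne_zero (by rw [h]; exact one_ne_zero)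
  have h1 := Finset.add_sum_erase s f ha
  refine ⟨a, ha, by omega, ?_⟩
  intro b hb hba
  have h2 : ∑ i ∈ s.erase a, f i = 0 := by omega
  exact (Finset.sum_eq_zero_iff.1 h2) b (Finset.mem_erase.2 ⟨hba, hb⟩)

/-- The final step: a multiset with the additive structure found below is a line. -/
theorem fin_step (l : ι) (K : Set (Multiset (ι × ι))) (m : Multiset (ι × ι)) (α : ι → ℕ)
    (R : Finset ι) (hR : ∀ i ∈ R, row i ∈ K)
    (h1 : ∀ i ∈ R, ∀ j, m.count (i, j) = α i + m.count (l, j))
    (h2 : ∀ i ∉ R, ∀ j, m.count (i, j) = m.count (l, j))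
    (h3 : ∑ j, m.count (l, j) + ∑ i ∈ R, α i = 1)
    (h4 : ∀ j, m.count (l, j) ≠ 0 → col j ∈ K) : m ∈ K := by
  by_cases hb : ∑ j, m.count (l, j) = 1
  · obtain ⟨j2, _, hj2, hz⟩ := nat_sum_one univ (fun j => m.count (l, j)) hb
    have hα : ∀ i ∈ R, α i = 0 := Finset.sum_eq_zero_iff.1 (by omega)
    have : m = col j2 := by
      ext ⟨i, j⟩
      rw [count_col]
      have hv : m.count (i, j) = m.count (l, j) := by
        by_cases hi : i ∈ R
        · rw [h1 i hi j, hα i hi, zero_add]
        · exact h2 i hi j
      rw [hv]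
      by_cases hj : j = j2
      · subst hj; simpa using hj2
      · simpa [hj] using hz j (mem_univ _) hj
    rw [this]
    have hj2' : m.count (l, j2) = 1 := hj2
    exact h4 j2 (by omega)
  · have hb0 : ∑ j, m.count (l, j) = 0 := by omega
    have hβ : ∀ j, m.count (l, j) = 0 := fun j => (Finset.sum_eq_zero_iff.1 hb0) j (mem_univ _)
    obtain ⟨i1, hi1, hα1, hz⟩ := nat_sum_one R α (by omega)
    have : m = row i1 := by
      ext ⟨i, j⟩
      rw [count_row]
      by_cases hi : i ∈ R
      · rw [h1 i hi j, hβ j]
        by_cases hii : i = i1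
        · subst hii; simp [hα1]
        · simp [hii, hz i hi hii]
      · have : i ≠ i1 := by rintro rfl; exact hi hi1
        rw [h2 i hi j, hβ j]; simp [this]
    rw [this]
    exact hR i1 hi1

theorem crit (l : ι) (K : Set (Multiset (ι × ι))) (hK : K ⊆ lines l) (hne : K ≠ lines l)
    (m : Multiset (ι × ι))
    (hm : ∀ B : Finset (ι × ι), (∀ e ∈ K, cnt B e = 1) → cnt B m = 1) : m ∈ K := by
  classical
  set R : Finset ι := univ.filter (fun i => i ≠ l ∧ row i ∈ K) with hRdef
  have memR : ∀ i, i ∈ R ↔ i ≠ l ∧ row i ∈ K := by intro i; simp [hRdef]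
  have hlR : l ∉ R := by simp [memR]
  have exact' : ∀ B : Finset (ι × ι), (∀ j, col j ∈ K → ∃! i, (i, j) ∈ B) →
      (∀ i ∈ R, ∃! j, (i, j) ∈ B) → cnt B m = 1 := by
    intro B hC hRB
    apply hm
    intro e he
    rcases hK he with ⟨j, rfl⟩ | ⟨i, hi, rfl⟩
    · exact cnt_col B j (hC j he)
    · exact cnt_row B i (hRB i ((memR i).2 ⟨hi, he⟩))
  by_cases hall : ∀ j, col j ∈ K
  · -- all columns
    obtain ⟨i0, hi0l, hi0⟩ : ∃ i0, i0 ≠ l ∧ i0 ∉ R := by
      by_contra hcon
      push Not at hcon
      apply hne
      apply Set.Subset.antisymm hK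
      rintro e (⟨j, rfl⟩ | ⟨i, hi, rfl⟩)
      · exact hall j
      · exact ((memR i).1 (hcon i hi)).2
    have T : ∀ (ρ : ι → ι) (σ : Equiv.Perm ι), (∀ i ∈ R, ρ i = i) → (∀ i, i ∉ R → ρ i ∉ R) →
        ∑ i, m.count (ρ i, σ i) = 1 := by
      intro ρ σ hρ1 hρ2
      have := exact' (univ.image (fun i => (ρ i, σ i))) (fun j _ => by
        refine ⟨ρ (σ.symm j), ?_, ?_⟩
        · simp only [mem_image, mem_univ, true_and]
          exact ⟨σ.symm j, by simp⟩
        · intro i' hi'
          simp only [mem_image, mem_univ, true_and, Prod.mk.injEq] at hi'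
          obtain ⟨k, hk, hk'⟩ := hi'
          rw [← hk, ← hk']; simp) (fun i hi => by
        refine ⟨σ i, ?_, ?_⟩
        · simp only [mem_image, mem_univ, true_and, Prod.mk.injEq]
          exact ⟨i, hρ1 i hi, rfl⟩
        · intro j' hj'
          simp only [mem_image, mem_univ, true_and, Prod.mk.injEq] at hj'
          obtain ⟨k, hk, hk'⟩ := hj'
          by_cases hkR : k ∈ R
          · rw [hρ1 k hkR] at hk
            rw [← hk', hk]
          · exact absurd hi (hk ▸ hρ2 k hkR))
      unfold cnt at this
      rw [Finset.sum_image] at this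
      · exact this
      · intro a _ b _ hab
        simp only [Prod.mk.injEq] at hab
        exact σ.injective hab.2
    let ρ0 : ι → ι := fun i => if i ∈ R then i else l
    have hρ0 : ∀ i ∈ R, ρ0 i = i := fun i hi => by simp [ρ0, hi]
    have hρ0' : ∀ i, i ∉ R → ρ0 i ∉ R := fun i hi => by simp [ρ0, hi, hlR]
    have hρ0l : ∀ i, i ∉ R → ρ0 i = l := fun i hi => by simp [ρ0, hi]
    have h2 : ∀ i ∉ R, ∀ j, m.count (i, j) = m.count (l, j) := by
      intro i hi j
      have t1 := T ρ0 (Equiv.swap i j) hρ0 hρ0'
      have t2 := T (Function.update ρ0 i i) (Equiv.swap i j) (fun k hk => by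
        have : k ≠ i := by rintro rfl; exact hi hk
        rw [Function.update_of_ne this, hρ0 k hk]) (fun k hk => by
        by_cases hki : k = i
        · subst hki; simpa using hi
        · rw [Function.update_of_ne hki]; exact hρ0' k hk)
      rw [← Finset.add_sum_erase univ _ (mem_univ i)] at t1 t2
      have e : ∑ k ∈ univ.erase i, m.count (Function.update ρ0 i i k, Equiv.swap i j k) =
          ∑ k ∈ univ.erase i, m.count (ρ0 k, Equiv.swap i j k) := by
        apply Finset.sum_congr rfl
        intro k hk
        rw [Function.update_of_ne (Finset.ne_of_mem_erase hk)]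
      rw [e] at t2
      simp only [Function.update_self, Equiv.swap_apply_left, hρ0l i hi] at t1 t2
      omega
    have hrel : ∀ i ∈ R, ∀ j j', j ≠ j' →
        m.count (i, j) + m.count (l, j') = m.count (i, j') + m.count (l, j) := by
      intro i hi j j' hjj
      have hil : i ≠ l := ((memR i).1 hi).1
      obtain ⟨σ, hσi, hσl⟩ : ∃ σ : Equiv.Perm ι, σ i = j ∧ σ l = j' := by
        refine ⟨Equiv.swap (Equiv.swap i j l) j' * Equiv.swap i j, ?_, ?_⟩
        · rw [Equiv.Perm.mul_apply, Equiv.swap_apply_left]
          apply Equiv.swap_apply_of_ne_of_ne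
          · intro h
            have : Equiv.swap i j i = Equiv.swap i j l := by rw [Equiv.swap_apply_left]; exact h
            exact hil ((Equiv.swap i j).injective this)
          · exact hjj
        · rw [Equiv.Perm.mul_apply, Equiv.swap_apply_left]
      have t1 := T ρ0 σ hρ0 hρ0'
      have t2 := T ρ0 (σ * Equiv.swap i l) hρ0 hρ0'
      have hl : l ∈ (univ : Finset ι).erase i := by simp [Ne.symm hil]
      rw [← Finset.add_sum_erase univ _ (mem_univ i), ← Finset.add_sum_erase _ _ hl] at t1 t2
      have e : ∑ k ∈ ((univ : Finset ι).erase i).erase l,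
          m.count (ρ0 k, (σ * Equiv.swap i l) k) =
          ∑ k ∈ ((univ : Finset ι).erase i).erase l, m.count (ρ0 k, σ k) := by
        apply Finset.sum_congr rfl
        intro k hk
        rw [Finset.mem_erase, Finset.mem_erase] at hk
        rw [Equiv.Perm.mul_apply, Equiv.swap_apply_of_ne_of_ne hk.2.1 hk.1]
      rw [e] at t2
      simp only [Equiv.Perm.mul_apply, Equiv.swap_apply_left, Equiv.swap_apply_right, hρ0 i hi,
        hρ0l l hlR, hσi, hσl] at t1 t2
      omega
    obtain ⟨j1, hj1⟩ : ∃ j1, m.count (l, j1) = 0 := by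
      by_contra hcon
      push Not at hcon
      have t1 := T ρ0 1 hρ0 hρ0'
      have hl : l ∈ (univ : Finset ι).erase i0 := by simp [Ne.symm hi0l]
      rw [← Finset.add_sum_erase univ _ (mem_univ i0), ← Finset.add_sum_erase _ _ hl] at t1
      simp only [hρ0l i0 hi0, hρ0l l hlR] at t1
      have c1 := hcon ((1 : Equiv.Perm ι) i0)
      have c2 := hcon ((1 : Equiv.Perm ι) l)
      omega
    have h1 : ∀ i ∈ R, ∀ j, m.count (i, j) = m.count (i, j1) + m.count (l, j) := by
      intro i hi j
      by_cases hj : j = j1
      · subst hj; omega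
      · have := hrel i hi j j1 hj
        omega
    refine fin_step l K m (fun i => m.count (i, j1)) R (fun i hi => ((memR i).1 hi).2) h1 h2 ?_
      (fun j _ => hall j)
    have t1 := T ρ0 1 hρ0 hρ0'
    have e : ∑ i, m.count (ρ0 i, (1 : Equiv.Perm ι) i) =
        ∑ i, (m.count (l, i) + if i ∈ R then m.count (i, j1) else 0) := by
      apply Finset.sum_congr rfl
      intro i _
      rw [Equiv.Perm.one_apply]
      by_cases hi : i ∈ R
      · rw [hρ0 i hi, h1 i hi i]; simp [hi]; omega
      · rw [hρ0l i hi]; simp [hi]
    rw [e, Finset.sum_add_distrib] at t1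
    rw [← t1]
    congr 1
    rw [Finset.sum_ite_mem, Finset.univ_inter]
  · -- some column missing
    push Not at hall
    obtain ⟨js, hjs⟩ := hall
    set B0 : Finset (ι × ι) := R.image (fun i => (i, js)) ∪
      (univ.filter (fun j => col j ∈ K)).image (fun j => (l, j)) with hB0
    have memB0 : ∀ i j, (i, j) ∈ B0 ↔ (i ∈ R ∧ j = js) ∨ (i = l ∧ col j ∈ K) := by
      intro i j
      simp only [hB0, mem_union, mem_image, Prod.mk.injEq, mem_filter, mem_univ, true_and]
      constructor
      · rintro (⟨k, hk, rfl, rfl⟩ | ⟨k, hk, rfl, rfl⟩)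
        · exact Or.inl ⟨hk, rfl⟩
        · exact Or.inr ⟨rfl, hk⟩
      · rintro (⟨hk, rfl⟩ | ⟨rfl, hk⟩)
        · exact Or.inl ⟨i, hk, rfl, rfl⟩
        · exact Or.inr ⟨j, hk, rfl, rfl⟩
    have c0 : cnt B0 m = 1 := by
      apply exact'
      · intro j hj
        refine ⟨l, ?_, ?_⟩
        · show (l, j) ∈ B0
          rw [memB0]; exact Or.inr ⟨rfl, hj⟩
        · intro i hi
          rcases (memB0 i j).1 hi with ⟨_, rfl⟩ | ⟨h, _⟩
          · exact absurd hj hjs
          · exact h
      · intro i hi
        refine ⟨js, ?_, ?_⟩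
        · show (i, js) ∈ B0
          rw [memB0]; exact Or.inl ⟨hi, rfl⟩
        · intro j hj
          rcases (memB0 i j).1 hj with ⟨_, rfl⟩ | ⟨h, _⟩
          · rfl
          · exact absurd hi (h ▸ hlR)
    -- zero outside
    have hz : ∀ i j, i ∉ R → col j ∉ K → m.count (i, j) = 0 := by
      intro i' j' hi' hj'
      have hnot : (i', j') ∉ B0 := by
        rw [memB0]; rintro (⟨h, _⟩ | ⟨_, h⟩)
        · exact hi' h
        · exact hj' h
      have c : cnt (insert (i', j') B0) m = 1 := by
        apply exact'
        · intro j hj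
          refine ⟨l, ?_, ?_⟩
          · show (l, j) ∈ _
            rw [mem_insert, memB0]; exact Or.inr (Or.inr ⟨rfl, hj⟩)
          · intro i hi
            have hi : (i, j) ∈ insert (i', j') B0 := hi
            rw [mem_insert, memB0, Prod.mk.injEq] at hi
            rcases hi with ⟨_, rfl⟩ | ⟨_, rfl⟩ | ⟨h, _⟩
            · exact absurd hj hj'
            · exact absurd hj hjs
            · exact h
        · intro i hi
          refine ⟨js, ?_, ?_⟩
          · show (i, js) ∈ _
            rw [mem_insert, memB0]; exact Or.inr (Or.inl ⟨hi, rfl⟩)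
          · intro j hj
            have hj : (i, j) ∈ insert (i', j') B0 := hj
            rw [mem_insert, memB0, Prod.mk.injEq] at hj
            rcases hj with ⟨rfl, _⟩ | ⟨_, rfl⟩ | ⟨h, _⟩
            · exact absurd hi hi'
            · rfl
            · exact absurd hi (h ▸ hlR)
      unfold cnt at c c0
      rw [Finset.sum_insert hnot] at c
      omega
    -- rows: independent of the missing column
    have hrow : ∀ i ∈ R, ∀ j, col j ∉ K → m.count (i, j) = m.count (i, js) := by
      intro i' hi' j' hj'
      by_cases hjj : j' = js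
      · rw [hjj]
      have hmem : (i', js) ∈ B0 := (memB0 _ _).2 (Or.inl ⟨hi', rfl⟩)
      have hnot : (i', j') ∉ B0.erase (i', js) := by
        rw [mem_erase, memB0]; rintro ⟨_, ⟨_, h⟩ | ⟨_, h⟩⟩
        · exact hjj h
        · exact hj' h
      have c : cnt (insert (i', j') (B0.erase (i', js))) m = 1 := by
        apply exact'
        · intro j hj
          refine ⟨l, ?_, ?_⟩
          · show (l, j) ∈ _
            rw [mem_insert, mem_erase, memB0, Prod.mk.injEq, Ne, Prod.mk.injEq]
            refine Or.inr ⟨?_, Or.inr ⟨rfl, hj⟩⟩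
            rintro ⟨h, _⟩
            exact hlR (h ▸ hi')
          · intro i hi
            have hi : (i, j) ∈ insert (i', j') (B0.erase (i', js)) := hi
            rw [mem_insert, mem_erase, memB0, Prod.mk.injEq] at hi
            rcases hi with ⟨_, rfl⟩ | ⟨_, ⟨_, rfl⟩ | ⟨h, _⟩⟩
            · exact absurd hj hj'
            · exact absurd hj hjs
            · exact h
        · intro i hi
          by_cases hii : i = i'
          · subst hii
            refine ⟨j', ?_, ?_⟩
            · show (i, j') ∈ _
              exact mem_insert_self _ _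
            · intro j hj
              have hj : (i, j) ∈ insert (i, j') (B0.erase (i, js)) := hj
              rw [mem_insert, mem_erase, memB0, Prod.mk.injEq] at hj
              rcases hj with ⟨_, h⟩ | ⟨hne', ⟨_, rfl⟩ | ⟨h, _⟩⟩
              · exact h
              · exact absurd rfl hne'
              · exact absurd hi (h ▸ hlR)
          · refine ⟨js, ?_, ?_⟩
            · show (i, js) ∈ _
              rw [mem_insert, mem_erase, memB0]
              refine Or.inr ⟨?_, Or.inl ⟨hi, rfl⟩⟩
              rw [Ne, Prod.mk.injEq]; rintro ⟨h, _⟩; exact hii h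
            · intro j hj
              have hj : (i, j) ∈ insert (i', j') (B0.erase (i', js)) := hj
              rw [mem_insert, mem_erase, memB0, Prod.mk.injEq] at hj
              rcases hj with ⟨h, _⟩ | ⟨_, ⟨_, rfl⟩ | ⟨h, _⟩⟩
              · exact absurd h hii
              · rfl
              · exact absurd hi (h ▸ hlR)
      unfold cnt at c c0
      rw [Finset.sum_insert hnot] at c
      rw [← Finset.add_sum_erase B0 _ hmem] at c0
      omega
    -- columns: independent of the missing row
    have hcol : ∀ i ∉ R, ∀ j, m.count (i, j) = m.count (l, j) := by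
      intro i' hi' j'
      by_cases hj' : col j' ∈ K
      swap
      · rw [hz i' j' hi' hj', hz l j' hlR hj']
      by_cases hil : i' = l
      · rw [hil]
      have hmem : (l, j') ∈ B0 := (memB0 _ _).2 (Or.inr ⟨rfl, hj'⟩)
      have hnot : (i', j') ∉ B0.erase (l, j') := by
        rw [mem_erase, memB0]; rintro ⟨_, ⟨h, _⟩ | ⟨h, _⟩⟩
        · exact hi' h
        · exact hil h
      have c : cnt (insert (i', j') (B0.erase (l, j'))) m = 1 := by
        apply exact'
        · intro j hj
          by_cases hjj : j = j'
          · subst hjj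
            refine ⟨i', ?_, ?_⟩
            · show (i', j) ∈ _
              exact mem_insert_self _ _
            · intro i hi
              have hi : (i, j) ∈ insert (i', j) (B0.erase (l, j)) := hi
              rw [mem_insert, mem_erase, memB0, Prod.mk.injEq] at hi
              rcases hi with ⟨h, _⟩ | ⟨hne', ⟨_, rfl⟩ | ⟨rfl, _⟩⟩
              · exact h
              · exact absurd hj hjs
              · exact absurd rfl hne'
          · refine ⟨l, ?_, ?_⟩
            · show (l, j) ∈ _
              rw [mem_insert, mem_erase, memB0]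
              refine Or.inr ⟨?_, Or.inr ⟨rfl, hj⟩⟩
              rw [Ne, Prod.mk.injEq]; rintro ⟨_, h⟩; exact hjj h
            · intro i hi
              have hi : (i, j) ∈ insert (i', j') (B0.erase (l, j')) := hi
              rw [mem_insert, mem_erase, memB0, Prod.mk.injEq] at hi
              rcases hi with ⟨_, h⟩ | ⟨_, ⟨_, rfl⟩ | ⟨h, _⟩⟩
              · exact absurd h hjj
              · exact absurd hj hjs
              · exact h
        · intro i hi
          refine ⟨js, ?_, ?_⟩
          · show (i, js) ∈ _
            rw [mem_insert, mem_erase, memB0]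
            exact Or.inr ⟨fun h => hlR ((Prod.mk.inj h).1 ▸ hi), Or.inl ⟨hi, rfl⟩⟩
          · intro j hj
            have hj : (i, j) ∈ insert (i', j') (B0.erase (l, j')) := hj
            rw [mem_insert, mem_erase, memB0, Prod.mk.injEq] at hj
            rcases hj with ⟨rfl, _⟩ | ⟨_, ⟨_, rfl⟩ | ⟨h, _⟩⟩
            · exact absurd hi hi'
            · rfl
            · exact absurd hi (h ▸ hlR)
      unfold cnt at c c0
      rw [Finset.sum_insert hnot] at c
      rw [← Finset.add_sum_erase B0 _ hmem] at c0
      omega
    -- the core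
    have hcore : ∀ i ∈ R, ∀ j, col j ∈ K → m.count (i, j) = m.count (i, js) + m.count (l, j) := by
      intro i' hi' j' hj'
      have hjj : j' ≠ js := by rintro rfl; exact hjs hj'
      have hil : i' ≠ l := ((memR i').1 hi').1
      have hmem : (i', js) ∈ B0 := (memB0 _ _).2 (Or.inl ⟨hi', rfl⟩)
      have hmem2 : (l, j') ∈ B0.erase (i', js) := by
        rw [mem_erase, memB0, Ne, Prod.mk.injEq]
        exact ⟨fun h => hjj h.2, Or.inr ⟨rfl, hj'⟩⟩
      have hnot : (i', j') ∉ (B0.erase (i', js)).erase (l, j') := by
        rw [mem_erase, mem_erase, memB0]; rintro ⟨_, _, ⟨_, h⟩ | ⟨h, _⟩⟩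
        · exact hjj h
        · exact hil h
      have c : cnt (insert (i', j') ((B0.erase (i', js)).erase (l, j'))) m = 1 := by
        apply exact'
        · intro j hj
          by_cases hjj' : j = j'
          · subst hjj'
            refine ⟨i', ?_, ?_⟩
            · show (i', j) ∈ _
              exact mem_insert_self _ _
            · intro i hi
              have hi : (i, j) ∈ insert (i', j) ((B0.erase (i', js)).erase (l, j)) := hi
              rw [mem_insert, mem_erase, mem_erase, memB0, Prod.mk.injEq] at hi
              rcases hi with ⟨h, _⟩ | ⟨hne', _, ⟨_, rfl⟩ | ⟨rfl, _⟩⟩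
              · exact h
              · exact absurd hj hjs
              · exact absurd rfl hne'
          · refine ⟨l, ?_, ?_⟩
            · show (l, j) ∈ _
              rw [mem_insert, mem_erase, mem_erase, memB0]
              exact Or.inr ⟨fun h => hjj' (Prod.mk.inj h).2, fun h => hil (Prod.mk.inj h).1.symm,
                Or.inr ⟨rfl, hj⟩⟩
            · intro i hi
              have hi : (i, j) ∈ insert (i', j') ((B0.erase (i', js)).erase (l, j')) := hi
              rw [mem_insert, mem_erase, mem_erase, memB0, Prod.mk.injEq] at hi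
              rcases hi with ⟨_, h⟩ | ⟨_, _, ⟨_, rfl⟩ | ⟨h, _⟩⟩
              · exact absurd h hjj'
              · exact absurd hj hjs
              · exact h
        · intro i hi
          by_cases hii : i = i'
          · subst hii
            refine ⟨j', ?_, ?_⟩
            · show (i, j') ∈ _
              exact mem_insert_self _ _
            · intro j hj
              have hj : (i, j) ∈ insert (i, j') ((B0.erase (i, js)).erase (l, j')) := hj
              rw [mem_insert, mem_erase, mem_erase, memB0, Prod.mk.injEq] at hj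
              rcases hj with ⟨_, h⟩ | ⟨_, hne', ⟨_, rfl⟩ | ⟨h, _⟩⟩
              · exact h
              · exact absurd rfl hne'
              · exact absurd hi (h ▸ hlR)
          · refine ⟨js, ?_, ?_⟩
            · show (i, js) ∈ _
              rw [mem_insert, mem_erase, mem_erase, memB0]
              exact Or.inr ⟨fun h => hjj (Prod.mk.inj h).2.symm, fun h => hii (Prod.mk.inj h).1,
                Or.inl ⟨hi, rfl⟩⟩
            · intro j hj
              have hj : (i, j) ∈ insert (i', j') ((B0.erase (i', js)).erase (l, j')) := hj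
              rw [mem_insert, mem_erase, mem_erase, memB0, Prod.mk.injEq] at hj
              rcases hj with ⟨h, _⟩ | ⟨_, _, ⟨_, rfl⟩ | ⟨h, _⟩⟩
              · exact absurd h hii
              · rfl
              · exact absurd hi (h ▸ hlR)
      unfold cnt at c c0
      rw [Finset.sum_insert hnot] at c
      rw [← Finset.add_sum_erase B0 _ hmem, ← Finset.add_sum_erase _ _ hmem2] at c0
      omega
    refine fin_step l K m (fun i => m.count (i, js)) R (fun i hi => ((memR i).1 hi).2) ?_ hcol ?_ ?_
    · intro i hi j
      by_cases hj : col j ∈ K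
      · exact hcore i hi j hj
      · rw [hrow i hi j hj, hz l j hlR hj, add_zero]
    · have hdis : Disjoint (R.image (fun i => (i, js)))
          ((univ.filter (fun j => col j ∈ K)).image (fun j => (l, j))) := by
        rw [Finset.disjoint_left]
        rintro ⟨i, j⟩ h1 h2
        simp only [mem_image, Prod.mk.injEq, mem_filter, mem_univ, true_and] at h1 h2
        obtain ⟨k, hk, rfl, rfl⟩ := h1
        obtain ⟨k', hk', rfl, rfl⟩ := h2
        exact hlR hk
      have c1 := c0
      unfold cnt at c1
      rw [hB0, Finset.sum_union hdis, Finset.sum_image (by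
        intro a _ b _ h; exact (Prod.mk.inj h).1), Finset.sum_image (by
        intro a _ b _ h; exact (Prod.mk.inj h).2)] at c1
      have e : ∑ j, m.count (l, j) = ∑ j ∈ univ.filter (fun j => col j ∈ K), m.count (l, j) := by
        symm
        apply Finset.sum_subset (Finset.filter_subset _ _)
        intro j _ hj
        apply hz l j hlR
        simpa using hj
      rw [e, add_comm]
      exact c1
    · intro j hj
      by_contra hc
      exact hj (hz l j hlR hc)

end Grid

end Pool.Agent.R639.S7
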