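import Pool.Agent.R639.S7.Grid

/-!
# The syntactic quotients satisfy the identities of `S₇⁰`
-/

set_option autoImplicit false

namespace Pool.Agent.R639.S7

open Finset

section Sep

variable {ι : Type} [Fintype ι] [DecidableEq ι]

theorem line_min (l i0 : ι) (h0 : i0 ≠ l) (e m : Multiset (ι × ι)) (he : e ∈ lines l)
    (hm : m ∈ lines l) (h : ∀ y ∈ m, y ∈ e) : m = e := by
  have hex : ∀ i : ι, ∃ i', i' ≠ i := fun i => by
    by_cases h : i = l
    · exact ⟨i0, by rw [h]; exact h0⟩
    · exact ⟨l, fun h' => h h'.symm⟩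
  rcases he with ⟨j, rfl⟩ | ⟨i, hi, rfl⟩ <;> rcases hm with ⟨j', rfl⟩ | ⟨i', hi', rfl⟩
  · have this : j' = j := (mem_col j (l, j')).1 (h _ ((mem_col j' _).2 rfl))
    rw [this]
  · obtain ⟨j'', hj''⟩ := hex j
    exact absurd ((mem_col j (i', j'')).1 (h _ ((mem_row i' _).2 rfl))) hj''
  · obtain ⟨i'', hi''⟩ := hex i
    exact absurd ((mem_row i (i'', j')).1 (h _ ((mem_col j' _).2 rfl))) hi''
  · have this : i' = i := (mem_row i (i', l)).1 (h _ ((mem_row i' _).2 rfl))
    rw [this]

theorem sep (l i0 : ι) (h0 : i0 ≠ l) (K K' : Set (Multiset (ι × ι))) (hK : K ⊆ lines l)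
    (hV : ∀ (B : Finset (ι × ι)) (Z : Set (ι × ι)), Val B Z K = Val B Z K') : K = K' := by
  have hH : ∀ B Z, H1 B Z K ↔ H1 B Z K' := fun B Z => by rw [← P1_Val, ← P1_Val, hV]
  have hA : ∀ B Z, HA B Z K ↔ HA B Z K' := fun B Z => by rw [← PA_Val, ← PA_Val, hV]
  have hsub : ∀ m' ∈ K', m' ∈ K := by
    intro m' hm'
    set Z : Set (ι × ι) := {y | y ∉ m'} with hZ
    have hZm : Av Z m' := fun y hy hy' => hy' hy
    set KU : Set (Multiset (ι × ι)) := {e | e ∈ K ∧ Av Z e} with hKU
    have hex : ∀ B : Finset (ι × ι), (∀ e ∈ KU, cnt B e = 1) → cnt B m' = 1 := by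
      intro B hB
      by_contra hc
      obtain ⟨e, he, hae, hce⟩ := (hH B Z).2 ⟨m', hm', hZm, hc⟩
      exact hce (hB e ⟨he, hae⟩)
    by_cases hne : KU = lines l
    · exfalso
      have hfull : ∀ p, p ∈ m' := by
        intro p
        by_contra hp
        have this : col p.2 ∈ KU := by rw [hne]; exact Or.inl ⟨_, rfl⟩
        exact this.2 p ((mem_col _ _).2 rfl) hp
      have hd := hex (univ.image (fun i => (i, i))) (by
        rw [hne]
        rintro e (⟨j, rfl⟩ | ⟨i, _, rfl⟩)
        · apply cnt_col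
          refine ⟨j, ?_, ?_⟩
          · simp
          · intro i hi
            simpa using hi
        · apply cnt_row
          refine ⟨i, ?_, ?_⟩
          · simp
          · intro j hj
            have : i = j := by simpa using hj
            exact this.symm)
      unfold cnt at hd
      rw [Finset.sum_image (fun a _ b _ h => (Prod.mk.inj h).1),
        ← Finset.add_sum_erase univ _ (mem_univ l),
        ← Finset.add_sum_erase (univ.erase l) _ (mem_erase.2 ⟨h0, mem_univ i0⟩)] at hd
      have c1 := Multiset.count_pos.2 (hfull (l, l))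
      have c2 := Multiset.count_pos.2 (hfull (i0, i0))
      omega
    · exact (crit l KU (fun e he => hK he.1) hne m' hex).1
  apply Set.Subset.antisymm
  · intro e he
    set Z : Set (ι × ι) := {y | y ∉ e} with hZ
    have hZe : Av Z e := fun y hy hy' => hy' hy
    have h1 : H1 ∅ Z K' ∨ HA ∅ Z K' := by
      rw [← hH, ← hA, H1_or_HA]
      exact ⟨e, he, hZe⟩
    obtain ⟨m, hm, hav⟩ := (H1_or_HA ∅ Z K').1 h1
    have hme : m = e := by
      apply line_min l i0 h0 e m (hK he) (hK (hsub m hm))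
      intro y hy
      by_contra hc
      exact hav y hy hc
    rw [← hme]; exact hm
  · exact hsub

theorem QA_mem_V (l i0 : ι) (h0 : i0 ≠ l) :
    (⟨Quotient (st (lines l)), QA (lines l)⟩ : AnyAlg) ∈ V S70.alg := by
  rw [mem_V]
  intro e he
  show Holds (QA (lines l)) e
  rw [QA_holds]
  intro φ q r
  have hv : ∀ (B : Finset (ι × ι)) (Z : Set (ι × ι)),
      Val B Z (im (e.1.eval (Raw (ι × ι)) (fun i => (φ i).1)) q) =
      Val B Z (im (e.2.eval (Raw (ι × ι)) (fun i => (φ i).1)) q) := by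
    intro B Z
    unfold im
    rw [Val_mul, Val_mul, Val_eval, Val_eval, he]
  constructor
  · intro h
    rw [← sep l i0 h0 _ _ (fun x hx => h ▸ Or.inl hx) hv]; exact h
  · intro h
    rw [← sep l i0 h0 _ _ (fun x hx => h ▸ Or.inl hx) (fun B Z => (hv B Z).symm)]; exact h

end Sep

end Pool.Agent.R639.S7
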