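import Pool.Agent.R639.S7.Sep

/-!
# The grid identities
-/

set_option autoImplicit false

namespace Pool.Agent.R639.S7

open Finset

/-- the product of `x (f 0), …, x (f n)` -/
def mon (f : ℕ → ℕ) : ℕ → Tm
  | 0 => .x (f 0)
  | n + 1 => .mul (mon f n) (.x (f (n + 1)))

/-- the sum of `F 0, …, F n` -/
def sm (F : ℕ → Tm) : ℕ → Tm
  | 0 => F 0
  | n + 1 => .add (sm F n) (F (n + 1))

/-- column `j` (with rows `0, …, n + 1`) -/
def colT (n j : ℕ) : Tm := mon (fun i => Nat.pair i j) (n + 1)
/-- row `i` (with columns `0, …, n + 1`) -/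
def rowT (n i : ℕ) : Tm := mon (fun j => Nat.pair i j) (n + 1)

/-- the sum of all columns and all rows but the last -/
def sT (n : ℕ) : Tm := .add (sm (colT n) (n + 1)) (sm (rowT n) n)

/-- the grid identity -/
def idT (n : ℕ) : Tm × Tm := (sT n, .add (sT n) (rowT n (n + 1)))

/-! ### The identities hold in `S₇` -/

/-- value of `x₁⋯xₙ` in `S₇` with `n` the sum of the weights -/
def cl : ℕ → S7
  | 0 => .one
  | 1 => .a
  | _ + 2 => .t

/-- weights -/
def wt : S7 → ℕ
  | .one => 0
  | .a => 1
  | .t => 2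

theorem cl_wt : ∀ u : S7, cl (wt u) = u := by decide

theorem cl_add (x y : ℕ) : cl (x + y) = S7.mul (cl x) (cl y) := by
  match x, y with
  | 0, y => 
    rw [Nat.zero_add]; unfold S7.mul; simp [cl]
  | 1, 0 => rfl
  | 1, 1 => rfl
  | 1, y + 2 => 
    rw [← Nat.add_assoc]; rfl
  | x + 2, 0 => rfl
  | x + 2, 1 => 
    rw [show x + 2 + 1 = (x + 1) + 2 by omega]; rfl
  | x + 2, y + 2 => 
    rw [← Nat.add_assoc]; rfl

theorem eval_mon_S7 (v : ℕ → S7) (f : ℕ → ℕ) (n : ℕ) :
    (mon f n).eval S7.alg v = cl (∑ i ∈ range (n + 1), wt (v (f i))) := by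
  induction n with
  | zero => simp [mon, Tm.eval, cl_wt]
  | succ n ih =>
    rw [Finset.sum_range_succ, cl_add, ← ih, cl_wt]; rfl

theorem cl_eq : ∀ (x c : ℕ), c ≤ 1 → cl x = cl c → x = c := by
  intro x c hc h
  match x, c, hc with
  | 0, 0, _ => rfl
  | 1, 1, _ => rfl
  | 0, 1, _ => exact absurd h (by decide)
  | 1, 0, _ => exact absurd h (by decide)
  | x + 2, 0, _ =>
    have h' : S7.t ≠ S7.one := by decide
    exact absurd h h'
  | x + 2, 1, _ =>
    have h' : S7.t ≠ S7.a := by decide
    exact absurd h h'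

theorem add_ne_t : ∀ u v : S7, S7.add u v ≠ .t → u = S7.add u v ∧ v = S7.add u v := by decide

theorem eval_sm_S7 (v : ℕ → S7) (F : ℕ → Tm) (n : ℕ) (u : S7) (hu : u ≠ .t)
    (h : (sm F n).eval S7.alg v = u) : ∀ i ≤ n, (F i).eval S7.alg v = u := by
  induction n with
  | zero =>
    intro i hi
    obtain rfl : i = 0 := by omega
    exact h
  | succ n ih =>
    have h' : S7.add ((sm F n).eval S7.alg v) ((F (n + 1)).eval S7.alg v) = u := h
    have h2 := add_ne_t _ _ (h' ▸ hu)
    rw [h'] at h2
    intro i hi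
    rcases Nat.lt_or_ge n i with hlt | hle
    · obtain rfl : i = n + 1 := by omega
      exact h2.2
    · exact ih h2.1 i hle

theorem idT_S7 (n : ℕ) : Holds S7.alg (idT n) := by
  intro v
  show (sT n).eval S7.alg v = S7.add ((sT n).eval S7.alg v) ((rowT n (n + 1)).eval S7.alg v)
  by_cases ht : (sT n).eval S7.alg v = .t
  · rw [ht]; generalize (rowT n (n + 1)).eval S7.alg v = u; revert u; decide
  · obtain ⟨u, hu⟩ : ∃ u, (sT n).eval S7.alg v = u := ⟨_, rfl⟩
    have hut : u ≠ .t := hu ▸ ht
    have h' : S7.add ((sm (colT n) (n + 1)).eval S7.alg v) ((sm (rowT n) n).eval S7.alg v) = u := hu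
    have h2 := add_ne_t _ _ (h' ▸ hut)
    rw [h'] at h2
    have hc := eval_sm_S7 v _ _ u hut h2.1
    have hr := eval_sm_S7 v _ _ u hut h2.2
    obtain ⟨c, hc1, rfl⟩ : ∃ c ≤ 1, u = cl c := by
      cases u
      · exact ⟨0, by omega, rfl⟩
      · exact ⟨1, by omega, rfl⟩
      · exact absurd rfl hut
    have hc' : ∀ j ∈ range (n + 2), ∑ i ∈ range (n + 2), wt (v (Nat.pair i j)) = c := by
      intro j hj
      have := hc j (by have := mem_range.1 hj; omega)
      unfold colT at this
      rw [eval_mon_S7] at this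
      exact cl_eq _ _ hc1 this
    have hr' : ∀ i ∈ range (n + 1), ∑ j ∈ range (n + 2), wt (v (Nat.pair i j)) = c := by
      intro i hi
      have := hr i (by have := mem_range.1 hi; omega)
      unfold rowT at this
      rw [eval_mon_S7] at this
      exact cl_eq _ _ hc1 this
    have htot := Finset.sum_congr rfl hc'
    rw [Finset.sum_comm, Finset.sum_range_succ, Finset.sum_congr rfl hr'] at htot
    simp only [Finset.sum_const, card_range, smul_eq_mul] at htot
    have hl : ∑ j ∈ range (n + 2), wt (v (Nat.pair (n + 1) j)) = c := by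
      have e : (n + 2) * c = (n + 1) * c + c := by ring
      rw [e] at htot
      omega
    have hm : (rowT n (n + 1)).eval S7.alg v = cl c := by
      unfold rowT
      rw [eval_mon_S7, hl]
    rw [hu, hm]
    generalize cl c = u; revert u; decide

/-! ### Evaluation in sets of multisets -/

section Sets

variable {P : Type}

theorem mem_mon (φ : ℕ → Set (Multiset P)) (f : ℕ → ℕ) (n : ℕ) (m : Multiset P) :
    m ∈ (mon f n).eval (Raw P) φ ↔
      ∃ ψ : ℕ → Multiset P, (∀ i ≤ n, ψ i ∈ φ (f i)) ∧ m = ∑ i ∈ range (n + 1), ψ i := by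
  induction n generalizing m with
  | zero =>
    constructor
    · intro h
      refine ⟨fun _ => m, ?_, by simp⟩
      intro i hi
      obtain rfl : i = 0 := by omega
      exact h
    · rintro ⟨ψ, h, rfl⟩
      show _ ∈ φ (f 0)
      simpa using h 0 le_rfl
  | succ n ih =>
    constructor
    · rintro ⟨m1, h1, m2, h2, rfl⟩
      obtain ⟨ψ, h, rfl⟩ := (ih m1).1 h1
      refine ⟨Function.update ψ (n + 1) m2, ?_, ?_⟩
      · intro i hi
        by_cases hin : i = n + 1
        · subst hin; rw [Function.update_self]; exact h2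
        · rw [Function.update_of_ne hin]; exact h i (by omega)
      · rw [Finset.sum_range_succ _ (n + 1), Function.update_self]
        show _ + m2 = _ + m2
        congr 1
        apply Finset.sum_congr rfl
        intro i hi
        rw [Function.update_of_ne]
        have := mem_range.1 hi; omega
    · rintro ⟨ψ, h, rfl⟩
      rw [Finset.sum_range_succ]
      exact ⟨_, (ih _).2 ⟨ψ, fun i hi => h i (by omega), rfl⟩, _, h (n + 1) le_rfl, rfl⟩

theorem mem_sm (φ : ℕ → Set (Multiset P)) (F : ℕ → Tm) (n : ℕ) (m : Multiset P) :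
    m ∈ (sm F n).eval (Raw P) φ ↔ ∃ i ≤ n, m ∈ (F i).eval (Raw P) φ := by
  induction n with
  | zero =>
    constructor
    · intro h; exact ⟨0, le_rfl, h⟩
    · rintro ⟨i, hi, h⟩
      obtain rfl : i = 0 := by omega
      exact h
  | succ n ih =>
    constructor
    · rintro (h | h)
      · obtain ⟨i, hi, h⟩ := ih.1 h
        exact ⟨i, by omega, h⟩
      · exact ⟨n + 1, le_rfl, h⟩
    · rintro ⟨i, hi, h⟩
      by_cases hin : i = n + 1
      · subst hin; exact Or.inr h
      · exact Or.inl (ih.2 ⟨i, by omega, h⟩)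

theorem mem_sT (φ : ℕ → Set (Multiset P)) (n : ℕ) (m : Multiset P) :
    m ∈ (sT n).eval (Raw P) φ ↔ (∃ j ≤ n + 1, m ∈ (colT n j).eval (Raw P) φ) ∨
      ∃ i ≤ n, m ∈ (rowT n i).eval (Raw P) φ := by
  rw [← mem_sm, ← mem_sm]; rfl

end Sets

/-! ### The identities in the syntactic quotients -/

section Quot

variable {ι : Type} [Fintype ι] [DecidableEq ι]

theorem card_line (l : ι) (m : Multiset (ι × ι)) (hm : m ∈ lines l) :
    Multiset.card m = Fintype.card ι := by
  rcases hm with ⟨j, rfl⟩ | ⟨i, _, rfl⟩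
  · have : colF j = univ.image (fun i => (i, j)) := by
      ext ⟨i, j'⟩; simp [colF, eq_comm]
    show (colF j).card = _
    rw [this, card_image_of_injective _ (fun a b h => (Prod.mk.inj h).1)]; rfl
  · have : rowF i = univ.image (fun j => (i, j)) := by
      ext ⟨i', j⟩; simp [rowF, eq_comm]
    show (rowF i).card = _
    rw [this, card_image_of_injective _ (fun a b h => (Prod.mk.inj h).2)]; rfl

theorem col_inj (l : ι) (j j' : ι) (h : col j = col j') : j = j' := by
  have : (l, j) ∈ col j' := by rw [← h, mem_col]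
  exact (mem_col _ _).1 this

theorem idT_QA (l : ι) (n : ℕ) (hn : 2 * n + 3 < Fintype.card ι ∨ Fintype.card ι < n + 2) :
    Holds (QA (lines l)) (idT n) := by
  rw [QA_holds]
  intro φ q r
  set φ' : ℕ → Set (Multiset (ι × ι)) := fun i => (φ i).1 with hφ'
  have key : im ((sT n).eval (Raw (ι × ι)) φ') q ⊆ lines l →
      im ((rowT n (n + 1)).eval (Raw (ι × ι)) φ') q ⊆ im ((sT n).eval (Raw (ι × ι)) φ') q := by
    rintro hsub _ ⟨m, hm, q0, hq0, rfl⟩
    obtain ⟨χ, hχ, rfl⟩ := (mem_mon _ _ _ _).1 hm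
    choose ω hω using fun i => (φ i).2.1
    let ψ : ℕ → ℕ → Multiset (ι × ι) := fun i j => if i = n + 1 then χ j else ω (Nat.pair i j)
    have hψ : ∀ i j, j ≤ n + 1 → ψ i j ∈ φ' (Nat.pair i j) := by
      intro i j hj
      by_cases hi : i = n + 1
      · simp only [ψ, hi, if_true]; exact hχ j hj
      · simp only [ψ, hi, if_false]; exact hω _
    have hψl : ∀ j, ψ (n + 1) j = χ j := fun j => by simp [ψ]
    let c : ℕ → Multiset (ι × ι) := fun j => ∑ i ∈ range (n + 2), ψ i j
    let ρ : ℕ → Multiset (ι × ι) := fun i => ∑ j ∈ range (n + 2), ψ i j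
    have hc : ∀ j ≤ n + 1, c j ∈ (sT n).eval (Raw (ι × ι)) φ' := by
      intro j hj
      rw [mem_sT]
      left
      exact ⟨j, hj, (mem_mon _ _ _ _).2 ⟨fun i => ψ i j, fun i _ => hψ i j hj, rfl⟩⟩
    have hρ : ∀ i ≤ n, ρ i ∈ (sT n).eval (Raw (ι × ι)) φ' := by
      intro i hi
      rw [mem_sT]
      right
      exact ⟨i, hi, (mem_mon _ _ _ _).2 ⟨fun j => ψ i j, fun j hj => hψ i j hj, rfl⟩⟩
    let K0 : Finset (Multiset (ι × ι)) := (range (n + 2)).image (fun j => c j + q0) ∪
      (range (n + 1)).image (fun i => ρ i + q0)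
    have hK0 : ∀ m ∈ K0, m ∈ im ((sT n).eval (Raw (ι × ι)) φ') q := by
      intro m hm
      rcases mem_union.1 hm with hm | hm
      · obtain ⟨j, hj, rfl⟩ := mem_image.1 hm
        exact ⟨c j, hc j (by have := mem_range.1 hj; omega), q0, hq0, rfl⟩
      · obtain ⟨i, hi, rfl⟩ := mem_image.1 hm
        exact ⟨ρ i, hρ i (by have := mem_range.1 hi; omega), q0, hq0, rfl⟩
    have hK0c : K0.card ≤ 2 * n + 3 := by
      refine (card_union_le _ _).trans ?_
      have h1 := card_image_le (s := range (n + 2)) (f := fun j => c j + q0)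
      have h2 := card_image_le (s := range (n + 1)) (f := fun i => ρ i + q0)
      rw [card_range] at h1 h2
      omega
    -- the sets are different
    have hne : (K0 : Set (Multiset (ι × ι))) ≠ lines l := by
      intro he
      rcases hn with hn | hn
      · have h1 : (univ : Finset ι).image col ⊆ K0 := by
          intro m hm
          obtain ⟨j, _, rfl⟩ := mem_image.1 hm
          have : col j ∈ (K0 : Set (Multiset (ι × ι))) := by rw [he]; exact Or.inl ⟨j, rfl⟩
          exact this
        have h2 := card_le_card h1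
        rw [card_image_of_injective _ (fun a b h => col_inj l a b h), card_univ] at h2
        omega
      · have h1 : c 0 + q0 ∈ lines l := hsub ⟨c 0, hc 0 (by omega), q0, hq0, rfl⟩
        have h2 := card_line l _ h1
        have h3 : n + 2 ≤ Multiset.card (c 0) := by
          show _ ≤ Multiset.card (∑ i ∈ range (n + 2), ψ i 0)
          rw [Multiset.card_sum]
          have : ∀ i ∈ range (n + 2), 1 ≤ Multiset.card (ψ i 0) := by
            intro i _
            rw [Nat.one_le_iff_ne_zero, Ne, Multiset.card_eq_zero]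
            intro h0
            have := hψ i 0 (by omega)
            rw [h0] at this
            exact (φ (Nat.pair i 0)).2.2 this
          have h4 := Finset.card_nsmul_le_sum (range (n + 2)) _ 1 this
          rw [card_range, smul_eq_mul, mul_one] at h4
          exact h4
        rw [Multiset.card_add] at h2
        omega
    apply hK0
    apply crit l (K0 : Set (Multiset (ι × ι))) (fun m hm => hsub (hK0 m hm)) hne
    intro B hB
    show cnt B ((∑ j ∈ range (n + 2), χ j) + q0) = 1
    have cs : ∀ (s : Finset ℕ) (f : ℕ → Multiset (ι × ι)),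
        cnt B (∑ i ∈ s, f i) = ∑ i ∈ s, cnt B (f i) := by
      intro s f
      unfold cnt
      rw [Finset.sum_comm]
      apply Finset.sum_congr rfl
      intro p _
      rw [Multiset.count_sum']
    have hcB : ∀ j ∈ range (n + 2), ∑ i ∈ range (n + 2), cnt B (ψ i j) = 1 - cnt B q0 := by
      intro j hj
      have := hB (c j + q0) (mem_union_left _ (mem_image_of_mem _ hj))
      rw [cnt_add] at this
      rw [← cs]
      show cnt B (c j) = _
      omega
    have hρB : ∀ i ∈ range (n + 1), ∑ j ∈ range (n + 2), cnt B (ψ i j) = 1 - cnt B q0 := by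
      intro i hi
      have := hB (ρ i + q0) (mem_union_right _ (mem_image_of_mem _ hi))
      rw [cnt_add] at this
      rw [← cs]
      show cnt B (ρ i) = _
      omega
    have hq1 : cnt B q0 ≤ 1 := by
      have := hB (c 0 + q0) (mem_union_left _ (mem_image_of_mem _ (by simp)))
      rw [cnt_add] at this
      omega
    have htot := Finset.sum_congr rfl hcB
    rw [Finset.sum_comm, Finset.sum_range_succ, Finset.sum_congr rfl hρB] at htot
    simp only [Finset.sum_const, card_range, smul_eq_mul, hψl] at htot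
    rw [cnt_add, cs]
    have e : (n + 2) * (1 - cnt B q0) = (n + 1) * (1 - cnt B q0) + (1 - cnt B q0) := by ring
    rw [e] at htot
    omega
  have he : im ((idT n).2.eval (Raw (ι × ι)) φ') q =
      im ((sT n).eval (Raw (ι × ι)) φ') q ∪ im ((rowT n (n + 1)).eval (Raw (ι × ι)) φ') q := by
    unfold im
    rw [← Set.image2_union_left]; rfl
  rw [he]
  show im ((sT n).eval (Raw (ι × ι)) φ') q ∪ r = lines l ↔ _
  constructor
  · intro h
    rw [Set.union_eq_self_of_subset_right (key (fun x hx => h ▸ Or.inl hx))]; exact h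
  · intro h
    rw [Set.union_eq_self_of_subset_right (key (fun x hx => h ▸ Or.inl (Or.inl hx)))] at h
    exact h

end Quot

/-! ### The identity fails in its own quotient -/

theorem sum_cells_col (n : ℕ) (j : ℕ) (hj : j < n + 2) :
    ∑ i ∈ range (n + 2), ({(Fin.ofNat (n + 2) i, Fin.ofNat (n + 2) j)} :
      Multiset (Fin (n + 2) × Fin (n + 2))) = col (⟨j, hj⟩ : Fin (n + 2)) := by
  rw [Finset.sum_range]
  ext ⟨i', j'⟩
  rw [Multiset.count_sum', count_col, Finset.sum_eq_single i']
  · rw [Multiset.count_singleton]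
    have h1 : Fin.ofNat (n + 2) (i' : ℕ) = i' := by ext; simp [Fin.ofNat, Nat.mod_eq_of_lt i'.2]
    have h2 : Fin.ofNat (n + 2) j = ⟨j, hj⟩ := by ext; simp [Fin.ofNat, Nat.mod_eq_of_lt hj]
    rw [h1, h2]
    simp
  · intro b _ hb
    rw [Multiset.count_singleton, if_neg]
    intro h
    apply hb
    have h1 : Fin.ofNat (n + 2) (b : ℕ) = b := by ext; simp [Fin.ofNat, Nat.mod_eq_of_lt b.2]
    rw [h1] at h
    exact (Prod.mk.inj h).1.symm
  · intro h; exact absurd (mem_univ _) h

theorem sum_cells_row (n : ℕ) (i : ℕ) (hi : i < n + 2) :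
    ∑ j ∈ range (n + 2), ({(Fin.ofNat (n + 2) i, Fin.ofNat (n + 2) j)} :
      Multiset (Fin (n + 2) × Fin (n + 2))) = row (⟨i, hi⟩ : Fin (n + 2)) := by
  rw [Finset.sum_range]
  ext ⟨i', j'⟩
  rw [Multiset.count_sum', count_row, Finset.sum_eq_single j']
  · rw [Multiset.count_singleton]
    have h1 : Fin.ofNat (n + 2) (j' : ℕ) = j' := by ext; simp [Fin.ofNat, Nat.mod_eq_of_lt j'.2]
    have h2 : Fin.ofNat (n + 2) i = ⟨i, hi⟩ := by ext; simp [Fin.ofNat, Nat.mod_eq_of_lt hi]
    rw [h1, h2]
    simp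
  · intro b _ hb
    rw [Multiset.count_singleton, if_neg]
    intro h
    apply hb
    have h1 : Fin.ofNat (n + 2) (b : ℕ) = b := by ext; simp [Fin.ofNat, Nat.mod_eq_of_lt b.2]
    rw [h1] at h
    exact (Prod.mk.inj h).2.symm
  · intro h; exact absurd (mem_univ _) h

theorem idT_fails (n : ℕ) :
    ¬ Holds (QA (lines (Fin.last (n + 1) : Fin (n + 2)))) (idT n) := by
  rw [QA_holds]
  intro h
  let φ : ℕ → Fp (Fin (n + 2) × Fin (n + 2)) := fun v =>
    ⟨{{(Fin.ofNat (n + 2) (Nat.unpair v).1, Fin.ofNat (n + 2) (Nat.unpair v).2)}},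
      ⟨_, rfl⟩, by
        intro h0
        have h0' : (0 : Multiset (Fin (n + 2) × Fin (n + 2))) = {_} := h0
        exact absurd h0'.symm (Multiset.singleton_ne_zero _)⟩
  have hcol : ∀ (j : ℕ) (hj : j < n + 2) (m : Multiset (Fin (n + 2) × Fin (n + 2))),
      m ∈ (colT n j).eval (Raw _) (fun i => (φ i).1) ↔ m = col (⟨j, hj⟩ : Fin (n + 2)) := by
    intro j hj m
    unfold colT
    rw [mem_mon, ← sum_cells_col n j hj]
    constructor
    · rintro ⟨ψ, hψ, rfl⟩
      apply Finset.sum_congr rfl
      intro i hi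
      have := hψ i (by have := mem_range.1 hi; omega)
      have this' : ψ i = {(Fin.ofNat (n + 2) (Nat.unpair (Nat.pair i j)).1,
        Fin.ofNat (n + 2) (Nat.unpair (Nat.pair i j)).2)} := this
      rw [Nat.unpair_pair] at this'
      exact this'
    · rintro rfl
      refine ⟨fun i => {(Fin.ofNat (n + 2) i, Fin.ofNat (n + 2) j)}, ?_, rfl⟩
      intro i _
      show _ = _
      rw [Nat.unpair_pair]
  have hrow : ∀ (i : ℕ) (hi : i < n + 2) (m : Multiset (Fin (n + 2) × Fin (n + 2))),
      m ∈ (rowT n i).eval (Raw _) (fun i => (φ i).1) ↔ m = row (⟨i, hi⟩ : Fin (n + 2)) := by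
    intro i hi m
    unfold rowT
    rw [mem_mon, ← sum_cells_row n i hi]
    constructor
    · rintro ⟨ψ, hψ, rfl⟩
      apply Finset.sum_congr rfl
      intro j hj
      have := hψ j (by have := mem_range.1 hj; omega)
      have this' : ψ j = {(Fin.ofNat (n + 2) (Nat.unpair (Nat.pair i j)).1,
        Fin.ofNat (n + 2) (Nat.unpair (Nat.pair i j)).2)} := this
      rw [Nat.unpair_pair] at this'
      exact this'
    · rintro rfl
      refine ⟨fun j => {(Fin.ofNat (n + 2) i, Fin.ofNat (n + 2) j)}, ?_, rfl⟩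
      intro j _
      show _ = _
      rw [Nat.unpair_pair]
  have him : ∀ S : Set (Multiset (Fin (n + 2) × Fin (n + 2))), im S {0} ∪ ∅ = S := by
    intro S
    unfold im
    simp
  have h1 := h φ {0} ∅
  rw [him, him] at h1
  have hs : (sT n).eval (Raw (Fin (n + 2) × Fin (n + 2))) (fun i => (φ i).1) =
      lines (Fin.last (n + 1)) := by
    ext m
    rw [mem_sT]
    constructor
    · rintro (⟨j, hj, hm⟩ | ⟨i, hi, hm⟩)
      · exact Or.inl ⟨_, (hcol j (by omega) m).1 hm⟩
      · refine Or.inr ⟨⟨i, by omega⟩, ?_, (hrow i (by omega) m).1 hm⟩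
        intro he
        have := congrArg Fin.val he
        simp at this
        omega
    · rintro (⟨j, rfl⟩ | ⟨i, hi, rfl⟩)
      · exact Or.inl ⟨j, by omega, (hcol j j.2 _).2 rfl⟩
      · refine Or.inr ⟨i, ?_, (hrow i i.2 _).2 rfl⟩
        have := Fin.val_lt_last hi
        omega
  have h2 := h1.1 hs
  have h3 : row (Fin.last (n + 1)) ∈ lines (Fin.last (n + 1)) := by
    rw [← h2]
    exact Or.inr ((hrow (n + 1) (by omega) _).2 rfl)
  rcases h3 with ⟨j, hj⟩ | ⟨i, hi, hi'⟩
  · have : ((0 : Fin (n + 2)), j) ∈ row (Fin.last (n + 1)) := by rw [hj, mem_col]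
    rw [mem_row] at this
    have := congrArg Fin.val this
    simp at this
  · have : (i, (0 : Fin (n + 2))) ∈ row (Fin.last (n + 1)) := by rw [hi', mem_row]
    rw [mem_row] at this
    exact hi this

end Pool.Agent.R639.S7
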